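import Mathlib
import Pool.Agent.H94.Sun.TPart

/-!
# MP_d4e3f3_nt, Q1

For every positive integer `a`,
`(1/5^a) * ∑_{k=0}^{5^a-1} k * binom(6k,3k) * binom(3k,k) / 864^k ≡ 75 (mod 125)`.
-/

namespace Pool.Agent.Results.MP_d4e3f3_nt.FiveAdicSum

open Finset

/-- `S_a = ∑_{k=0}^{5^a-1} k binom(6k,3k) binom(3k,k) / 864^k`, a rational number. -/
def S (a : ℕ) : ℚ :=
  ∑ k ∈ range (5 ^ a), (k : ℚ) * (Nat.choose (6 * k) (3 * k) : ℚ) * (Nat.choose (3 * k) k : ℚ) /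
    864 ^ k

/-- The ring `ℤ_(5)`: rational numbers whose reduced denominator is prime to `5`. -/
def InZ5 (x : ℚ) : Prop := Nat.Coprime x.den 5

/-- `x ≡ y (mod m)` for rational numbers: `(x - y)/m ∈ ℤ_(5)`. -/
def CongrMod (m : ℕ) (x y : ℚ) : Prop := InZ5 ((x - y) / m)

/-- For every positive integer `a`, `S_a / 5^a ≡ 75 (mod 125)`. -/
theorem result : ∀ a : ℕ, 0 < a → CongrMod 125 (S a / 5 ^ a) 75 := by
  intro a ha
  obtain ⟨a, rfl⟩ : ∃ b, a = b + 1 := ⟨a - 1, by omega⟩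
  have h := Pool.Agent.H94.Sun.main_rat a
  have hS : S (a + 1) = ∑ k ∈ range (5 ^ (a + 1)), (k : ℚ) * Pool.Agent.H94.Sun.t k := by
    unfold S
    refine sum_congr rfl fun k _ => ?_
    unfold Pool.Agent.H94.Sun.t
    ring
  rw [← hS] at h
  unfold CongrMod InZ5
  rw [Nat.coprime_comm, Nat.Prime.coprime_iff_not_dvd (by norm_num)]
  exact_mod_cast h

end Pool.Agent.Results.MP_d4e3f3_nt.FiveAdicSum
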